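import Mathlib
import Pool.Agent.W187.WQ.Fx

/-!
# WQ-DOT: approximate dot products
-/

open MeasureTheory Set
open Pool.Agent.W187.WP Pool.Agent.W187.WQ

namespace Pool.Agent.W22.WQ

theorem floor_err (a b : ℤ) (hb : 0 < b) : |(a : ℝ) / (b : ℝ) - ((a / b : ℤ) : ℝ)| ≤ 1 := by
  have h1 : b * (a / b) + a % b = a := Int.mul_ediv_add_emod a b
  have h2 : 0 ≤ a % b := Int.emod_nonneg a hb.ne'
  have h3 : a % b < b := Int.emod_lt_of_pos a hb
  have hb' : (0 : ℝ) < (b : ℝ) := by exact_mod_cast hb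
  have h4 : (a : ℝ) / (b : ℝ) - ((a / b : ℤ) : ℝ) = ((a % b : ℤ) : ℝ) / (b : ℝ) := by
    rw [div_sub' hb'.ne']
    congr 1
    have : (a : ℝ) = (b : ℝ) * ((a / b : ℤ) : ℝ) + ((a % b : ℤ) : ℝ) := by exact_mod_cast h1.symm
    linarith
  rw [h4, abs_of_nonneg (div_nonneg (by exact_mod_cast h2) hb'.le), div_le_one hb']
  exact_mod_cast h3.le

theorem dot_aux (D : ℤ) (ef eg M : ℝ) (f g : ℕ → ℝ) (hD : 0 < D) (hef : 0 ≤ ef) (heg : 0 ≤ eg)
    (hM : ∀ j, |g j| ≤ M) : ∀ (F G : List ℤ) (k l : ℕ), Apx D ef f k F → Apx D eg g l G →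
    F.length ≤ G.length →
    |(D : ℝ) * ((D : ℝ) * ∑ i ∈ Finset.range F.length, f (k + i) * g (l + i)) -
      ((doti F G : ℤ) : ℝ)| ≤ ((nm1 F : ℤ) : ℝ) * eg + (F.length : ℝ) * (ef * D * M)
  | [], G, k, l, _, _, _ => by
      simp [doti, nm1]
  | a :: F, [], k, l, _, _, h => by
      simp at h
  | a :: F, b :: G, k, l, hF, hG, h => by
      have ih := dot_aux D ef eg M f g hD hef heg hM F G (k + 1) (l + 1) hF.2 hG.2
        (by simpa using h)
      have hD' : (0 : ℝ) < (D : ℝ) := by exact_mod_cast hD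
      have e1 : ∑ i ∈ Finset.range (a :: F).length, f (k + i) * g (l + i) =
          (∑ i ∈ Finset.range F.length, f (k + 1 + i) * g (l + 1 + i)) + f k * g l := by
        rw [List.length_cons, Finset.sum_range_succ']
        simp only [add_zero]
        congr 1
        refine Finset.sum_congr rfl fun i _ => ?_
        rw [show k + (i + 1) = k + 1 + i by ring, show l + (i + 1) = l + 1 + i by ring]
      have e2 : ((doti (a :: F) (b :: G) : ℤ) : ℝ) = (a : ℝ) * (b : ℝ) + ((doti F G : ℤ) : ℝ) := by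
        have : doti (a :: F) (b :: G) = a * b + doti F G := rfl
        rw [this]
        push_cast
        ring
      have e3 : ((nm1 (a :: F) : ℤ) : ℝ) = |(a : ℝ)| + ((nm1 F : ℤ) : ℝ) := by
        have : nm1 (a :: F) = |a| + nm1 F := rfl
        rw [this]
        push_cast
        ring
      rw [e1, e2, e3]
      have h1 : |(a : ℝ) * ((D : ℝ) * g l - b)| ≤ |(a : ℝ)| * eg := by
        rw [abs_mul]
        exact mul_le_mul_of_nonneg_left hG.1 (abs_nonneg _)
      have h2 : |((D : ℝ) * f k - a) * ((D : ℝ) * g l)| ≤ ef * ((D : ℝ) * M) := by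
        rw [abs_mul]
        refine mul_le_mul hF.1 ?_ (abs_nonneg _) hef
        rw [abs_mul, abs_of_pos hD']
        exact mul_le_mul_of_nonneg_left (hM l) hD'.le
      have h3 : (D : ℝ) * ((D : ℝ) * ((∑ i ∈ Finset.range F.length, f (k + 1 + i) * g (l + 1 + i)) +
          f k * g l)) - ((a : ℝ) * (b : ℝ) + ((doti F G : ℤ) : ℝ)) =
          ((D : ℝ) * ((D : ℝ) * ∑ i ∈ Finset.range F.length, f (k + 1 + i) * g (l + 1 + i)) -
            ((doti F G : ℤ) : ℝ)) + ((a : ℝ) * ((D : ℝ) * g l - b) +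
            ((D : ℝ) * f k - a) * ((D : ℝ) * g l)) := by ring
      rw [h3]
      refine (abs_add_le _ _).trans ?_
      have h4 := abs_add_le ((a : ℝ) * ((D : ℝ) * g l - b)) (((D : ℝ) * f k - a) * ((D : ℝ) * g l))
      rw [List.length_cons]
      push_cast
      nlinarith

theorem dot : S_DOT := by
  intro D ef eg M S f g F G k l hD hef heg hM hF hG hS hlen
  have hD' : (0 : ℝ) < (D : ℝ) := by exact_mod_cast hD
  have h1 := dot_aux D ef eg M f g hD hef heg hM F G k l hF hG hlen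
  have h2 := floor_err (doti F G) D hD
  set s : ℝ := ∑ i ∈ Finset.range F.length, f (k + i) * g (l + i) with hs
  have h3 : (D : ℝ) * s - ((doti F G / D : ℤ) : ℝ) =
      ((D : ℝ) * ((D : ℝ) * s) - ((doti F G : ℤ) : ℝ)) / D +
        (((doti F G : ℤ) : ℝ) / D - ((doti F G / D : ℤ) : ℝ)) := by
    field_simp
    ring
  rw [h3]
  refine (abs_add_le _ _).trans ?_
  rw [abs_div, abs_of_pos hD']
  have h4 : |(D : ℝ) * ((D : ℝ) * s) - ((doti F G : ℤ) : ℝ)| / D ≤
      S * eg / D + M * ef * F.length := by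
    rw [div_le_iff₀ hD']
    have h5 : (S * eg / D + M * ef * F.length) * D = S * eg + F.length * (ef * D * M) := by
      field_simp
    rw [h5]
    have h6 := mul_le_mul_of_nonneg_right hS heg
    linarith
  linarith

end Pool.Agent.W22.WQ
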