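import Mathlib
import Pool.Agent.W22.WQ.Dot

/-!
# WQ-MUUS: moment lists
-/

open MeasureTheory Set
open Pool.Agent.W187.WP Pool.Agent.W187.WQ

namespace Pool.Agent.W22.WQ

theorem mu_ok : S_MU := by
  intro D e n
  induction n with
  | zero => intro k _; exact trivial
  | succ n ih =>
      intro k hD
      refine ⟨?_, ih (k + 1) hD⟩
      have hpos : (0 : ℤ) < 2 * ((e : ℤ) + (k : ℤ)) + 1 := by positivity
      have h := floor_err D (2 * ((e : ℤ) + (k : ℤ)) + 1) hpos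
      unfold mu
      rw [mul_one_div]
      push_cast at h ⊢
      exact h

theorem us_aux (D : ℤ) (ε : ℝ) (f : ℕ → ℝ) (hε : 0 ≤ ε) : ∀ (m i0 : ℕ) (l : List ℤ) (k : ℕ),
    1 ≤ i0 → Apx D ε f k l → m ≤ l.length →
    |(D : ℝ) * (∑ i ∈ Finset.range m, f (k + i) / (2 * ((i0 : ℝ) + (i : ℝ)))) -
      ((us i0 m l : ℤ) : ℝ)| ≤ m * (ε / 2 + 1)
  | 0, i0, l, k, _, _, _ => by
      simp [us]
  | m + 1, i0, [], k, _, _, h => by
      simp at h
  | m + 1, i0, a :: l, k, hi, hl, h => by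
      have ih := us_aux D ε f hε m (i0 + 1) l (k + 1) (by omega) hl.2 (by simpa using h)
      have hi' : (1 : ℝ) ≤ (i0 : ℝ) := by exact_mod_cast hi
      have e1 : ∑ i ∈ Finset.range (m + 1), f (k + i) / (2 * ((i0 : ℝ) + (i : ℝ))) =
          (∑ i ∈ Finset.range m, f (k + 1 + i) / (2 * (((i0 + 1 : ℕ) : ℝ) + (i : ℝ)))) +
            f k / (2 * (i0 : ℝ)) := by
        rw [Finset.sum_range_succ']
        congr 1
        · refine Finset.sum_congr rfl fun i _ => ?_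
          rw [show k + (i + 1) = k + 1 + i by ring]
          push_cast
          congr 2
          ring
        · simp
      have e2 : ((us i0 (m + 1) (a :: l) : ℤ) : ℝ) =
          ((a / (2 * (i0 : ℤ)) : ℤ) : ℝ) + ((us (i0 + 1) m l : ℤ) : ℝ) := by
        have : us i0 (m + 1) (a :: l) = a / (2 * (i0 : ℤ)) + us (i0 + 1) m l := rfl
        rw [this, Int.cast_add]
      rw [e1, e2]
      have hp : (0 : ℤ) < 2 * (i0 : ℤ) := by omega
      have h1 := floor_err a (2 * (i0 : ℤ)) hp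
      have h2 : |((D : ℝ) * f k - a) / (2 * (i0 : ℝ))| ≤ ε / 2 := by
        rw [abs_div, abs_of_pos (by positivity : (0 : ℝ) < 2 * (i0 : ℝ))]
        exact div_le_div₀ hε hl.1 (by norm_num) (by linarith)
      have h3 : (D : ℝ) * ((∑ i ∈ Finset.range m, f (k + 1 + i) /
          (2 * (((i0 + 1 : ℕ) : ℝ) + (i : ℝ)))) + f k / (2 * (i0 : ℝ))) -
          (((a / (2 * (i0 : ℤ)) : ℤ) : ℝ) + ((us (i0 + 1) m l : ℤ) : ℝ)) =
          ((D : ℝ) * (∑ i ∈ Finset.range m, f (k + 1 + i) /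
          (2 * (((i0 + 1 : ℕ) : ℝ) + (i : ℝ)))) - ((us (i0 + 1) m l : ℤ) : ℝ)) +
          (((D : ℝ) * f k - a) / (2 * (i0 : ℝ)) +
            ((a : ℝ) / (2 * (i0 : ℝ)) - ((a / (2 * (i0 : ℤ)) : ℤ) : ℝ))) := by
        ring
      rw [h3]
      refine (abs_add_le _ _).trans ?_
      have h4 := abs_add_le (((D : ℝ) * f k - a) / (2 * (i0 : ℝ)))
        ((a : ℝ) / (2 * (i0 : ℝ)) - ((a / (2 * (i0 : ℤ)) : ℤ) : ℝ))
      have h5 : |(a : ℝ) / (2 * (i0 : ℝ)) - ((a / (2 * (i0 : ℤ)) : ℤ) : ℝ)| ≤ 1 := by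
        have h6 : (((2 * (i0 : ℤ) : ℤ)) : ℝ) = 2 * (i0 : ℝ) := by push_cast; ring
        rw [h6] at h1
        exact h1
      have e4 : ((m + 1 : ℕ) : ℝ) * (ε / 2 + 1) = (m : ℝ) * (ε / 2 + 1) + (ε / 2 + 1) := by
        push_cast
        ring
      rw [e4]
      linarith

theorem usl_aux (D : ℤ) (ε : ℝ) (f : ℕ → ℝ) (m : ℕ) (hε : 0 ≤ ε) : ∀ (n : ℕ) (l : List ℤ)
    (k : ℕ), Apx D ε f k l → n + m ≤ l.length →
    Apx D (m * (ε / 2 + 1))
      (fun j => ∑ i ∈ Finset.range m, f (j + (i + 1)) / (2 * ((i : ℝ) + 1))) k (usl m n l)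
  | 0, l, k, _, _ => trivial
  | n + 1, [], k, _, h => by
      simp at h
  | n + 1, a :: l, k, hl, h => by
      have hlen : n + m ≤ l.length := by
        rw [List.length_cons] at h
        omega
      refine ⟨?_, usl_aux D ε f m hε n l (k + 1) hl.2 hlen⟩
      have h1 := us_aux D ε f hε m 1 l (k + 1) le_rfl hl.2 (by omega)
      have e1 : ∑ i ∈ Finset.range m, f (k + 1 + i) / (2 * (((1 : ℕ) : ℝ) + (i : ℝ))) =
          ∑ i ∈ Finset.range m, f (k + (i + 1)) / (2 * ((i : ℝ) + 1)) := by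
        refine Finset.sum_congr rfl fun i _ => ?_
        rw [show k + 1 + i = k + (i + 1) by ring]
        push_cast
        congr 2
        ring
      rw [e1] at h1
      exact h1

theorem us_ok : S_US := fun D ε f m n l _ hε hl h => usl_aux D ε f m hε n l 0 hl h

end Pool.Agent.W22.WQ
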